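import Pool.Agent.W477.GM.Stms

set_option maxHeartbeats 1000000

namespace Pool.Agent.W477.GM.W303

open Pool.Agent.W477.GM

theorem set_holds (h : P_EQ) (h1 : P_ACT) (h3 : P_HS) : P_SET := by
  intro P _ _ S hS κ z F hz hmono hdense hcongr hsupp hstage hcov
  obtain ⟨e, he⟩ := hsupp
  obtain ⟨a, ha⟩ := hstage
  have hE := h P
  have hA := h1 P
  have hH := h3 P S hS
  have key : ∀ y p, HS S y →
      (fmem y (Nm.mk κ (fun k u => F (z k) u ∧ S.rho a u = u) z) p ↔ F y p) := by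
    intro y p hy
    constructor
    · intro hm
      refine hdense y p hy fun q hq => ?_
      obtain ⟨r, hr, k, ⟨u, hu, hru⟩, hf⟩ := hm q hq
      exact ⟨r, hr, hcongr (z k) y r (hz k) hy (hE.symm _ _ _ hf)
        (hmono (z k) u r (hz k) hru hu.1)⟩
    · intro hF q hq
      have hFq := hmono y p q hy hq hF
      obtain ⟨r, hr, k, hf⟩ := hcov y q hy hFq
      refine ⟨r, hr, k, ⟨S.rho a r, ⟨ha k r ?_, hS.rho_rho a a r le_rfl⟩, hS.le_rho a r⟩, hf⟩
      exact hcongr y (z k) r hy (hz k) hf (hmono y q r hy hr hFq)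
  refine ⟨Nm.mk κ (fun k u => F (z k) u ∧ S.rho a u = u) z, ?_, key⟩
  refine ⟨⟨a, fun i u hu => hu.2⟩, ⟨e, fun g hg p => ?_⟩, hz⟩
  have hgG := hS.fsub e g hg
  have hgi := hS.finv e g hg
  have hgiG := hS.fsub e g⁻¹ hgi
  have hgg : ∀ q : P, g (g⁻¹ q) = q := fun q => by
    rw [← RelIso.mul_apply, mul_inv_cancel, RelIso.one_apply]
  have hact : ∀ x : Nm P, act g (act g⁻¹ x) = x := fun x => by
    rw [← hA.mul, mul_inv_cancel, hA.one]
  refine hE.ext κ _ (fun i => act g (z i)) κ _ z p ?_ ?_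
  · intro i q _ hm
    have h4 : fmem (act g (z i)) (act g (Nm.mk κ (fun k u => F (z k) u ∧ S.rho a u = u) z))
        (g (g⁻¹ q)) := by
      rw [hgg]
      exact hm
    rw [hA.fmem, key _ _ (hz i)] at h4
    have h5 := he g hg (z i) _ (hz i) h4
    rw [hgg] at h5
    exact (key _ _ (hH.act g hgG _ (hz i))).2 h5
  · intro j q _ hm
    have h4 := (key _ _ (hz j)).1 hm
    have h5 := he g⁻¹ hgi (z j) q (hz j) h4
    rw [← key _ _ (hH.act g⁻¹ hgiG _ (hz j)), ← hA.fmem g, hact, hgg] at h5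
    exact h5

end Pool.Agent.W477.GM.W303
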